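import Pool.Agent.H596R2.Matrix

/-!
# Counting order-preserving self-maps of the posets of a class
-/

set_option autoImplicit false

namespace Pool.Agent.Y570.CE

open Pool.Agent.H596R2

open Classical in
/-- The number of order-preserving self-maps of the poset given by the matrix `M` if this poset
belongs to the class `C`; `0` if it does not, or if `M` is not the matrix of a partial order. -/
noncomputable def countC (C : List (List Bool) → Prop) (M : List (List Bool)) : ℕ :=
  if IsPoset M ∧ C M then Nat.card {f : Fin M.length → Fin M.length //
    ∀ i j, rel M i j → rel M (f i) (f j)} else 0

/-- The poset given by `M` has height at most `h`: there is no chain with `h + 1` elements. -/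
def HeightLE (h : ℕ) (M : List (List Bool)) : Prop :=
  ¬ ∃ f : Fin (h + 1) → Fin M.length, ∀ i j, i < j → f i ≠ f j ∧ rel M (f i) (f j)

end Pool.Agent.Y570.CE
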