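import Pool.Agent.Y570.CE.Defs
import Pool.Agent.Results.MP_593132_lc.CountEndComplete

/-!
# Counting order-preserving self-maps of the posets of a class: hardness and membership
-/

set_option autoImplicit false

namespace Pool.Agent.Y570.CE

open Pool.Agent.H596R2 Pool.Agent.NPC Pool.Agent.NPC.Cnt Pool.Agent.NPC.H596

theorem countC_pos {C : List (List Bool) → Prop} {M : List (List Bool)} (h : C M) :
    countC C M = countEnd M := by
  unfold countC countEnd
  by_cases hP : IsPoset M
  · rw [if_pos ⟨hP, h⟩, if_pos hP]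
  · rw [if_neg (fun h' => hP h'.1), if_neg hP]

theorem countC_neg {C : List (List Bool) → Prop} {M : List (List Bool)}
    (h : ¬ (IsPoset M ∧ C M)) : countC C M = 0 := by
  unfold countC
  rw [if_neg h]

theorem countC_le (C : List (List Bool) → Prop) (M : List (List Bool)) :
    countC C M ≤ countEnd M := by
  by_cases h : C M
  · exact (countC_pos h).le
  · rw [countC_neg (fun h' => h h'.2)]
    exact Nat.zero_le _

/-! ### The height of the posets of the reduction -/

theorem heightLE_of_rank {α : Type} {l : List α} {r : α → α → Bool} (hl : l.Nodup) (rk : α → ℕ)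
    {h : ℕ} (hrk : ∀ x ∈ l, ∀ y ∈ l, r x y = true → x ≠ y → rk x < rk y)
    (hb : ∀ x ∈ l, rk x < h) : HeightLE h (matrixOf l r) := by
  rintro ⟨f, hf⟩
  let a : Fin (h + 1) → {a // a ∈ l} := fun i => matrixEquiv (r := r) hl (f i)
  have h1 : ∀ i j, i < j → rk (a i).1 < rk (a j).1 := by
    intro i j hij
    obtain ⟨h2, h3⟩ := hf i j hij
    rw [matrixEquiv_rel hl] at h3
    exact hrk _ (a i).2 _ (a j).2 h3 fun h4 =>
      h2 ((matrixEquiv (r := r) hl).injective (Subtype.ext h4))
  have h2 : ∀ (k : ℕ) (hk : k < h + 1), k ≤ rk (a ⟨k, hk⟩).1 := by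
    intro k
    induction k with
    | zero => intro _; exact Nat.zero_le _
    | succ k ih =>
      intro hk
      have h3 := ih (by omega)
      have h4 := h1 ⟨k, by omega⟩ ⟨k + 1, hk⟩ (by simp [Fin.lt_def])
      omega
  have h3 := h2 h (by omega)
  have h4 := hb _ (a ⟨h, by omega⟩).2
  omega

/-- the level of an element -/
def rkE (x : El) : ℕ :=
  if x.1 = 1 ∨ x.1 = 6 then 1 else if x.1 = 2 ∨ x.1 = 3 ∨ x.1 = 4 then 2 else 0

theorem rkE_lt (x : El) : rkE x < 3 := by
  unfold rkE
  split_ifs <;> omega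

section

variable (φ : List (List (Bool × ℕ)))

theorem tag0 (b : Option (Q0 φ) ⊕ Bool) (h : (g2 φ b).1 = 0) :
    g2 φ b = (0, (false, 0), 0, 0) := by
  rcases b with (_ | x) | (_ | _)
  · rfl
  · exact absurd h (g0_tag φ x).1
  · simp [g2] at h
  · simp [g2] at h

theorem rk_lt (b b' : Option (Q0 φ) ⊕ Bool) (h : leEl φ (g2 φ b) (g2 φ b'))
    (hne : g2 φ b ≠ g2 φ b') : rkE (g2 φ b) < rkE (g2 φ b') := by
  have t0 := tag0 φ b
  have t1 := tag0 φ b'
  generalize g2 φ b = x at h hne t0
  generalize g2 φ b' = y at h hne t1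
  unfold leEl at h
  rcases h with h | ⟨h1, h2⟩ | ⟨h1, h2⟩ | ⟨h1, h2⟩
  · exact absurd h hne
  · have h3 : y.1 ≠ 0 := fun h4 => hne ((t0 h1).trans (t1 h4).symm)
    have h4 : y.1 = 1 ∨ y.1 = 2 ∨ y.1 = 3 ∨ y.1 = 4 := by omega
    unfold rkE
    rw [h1]
    rcases h4 with h4 | h4 | h4 | h4 <;> rw [h4] <;> norm_num
  · have h4 : y.1 = 2 ∨ y.1 = 3 ∨ y.1 = 4 := by
      rcases h2 with h2 | h2 | h2
      · exact Or.inl h2.1
      · exact Or.inr (Or.inl h2.1)
      · exact Or.inr (Or.inr h2.1)
    unfold rkE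
    rw [h1]
    rcases h4 with h4 | h4 | h4 <;> rw [h4] <;> norm_num
  · unfold rkE
    rw [h1, h2]
    norm_num

theorem height_mat2 : HeightLE 3 (mat2 φ) := by
  refine heightLE_of_rank (nub_nodup _) rkE ?_ fun x _ => rkE_lt x
  intro x hx y hy h hne
  obtain ⟨b, rfl⟩ := (mem_els2 φ x).1 hx
  obtain ⟨b', rfl⟩ := (mem_els2 φ y).1 hy
  exact rk_lt φ b b' (of_decide_eq_true h) hne

theorem height_mat1 : HeightLE 3 (mat1 φ) := by
  refine heightLE_of_rank (nub_nodup _) rkE ?_ fun x _ => rkE_lt x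
  intro x hx y hy h hne
  obtain ⟨b, rfl⟩ := (mem_els1 φ x).1 hx
  obtain ⟨b', rfl⟩ := (mem_els1 φ y).1 hy
  exact rk_lt φ (Sum.inl b) (Sum.inl b') (of_decide_eq_true h) hne

theorem isPoset_mat2 : IsPoset (mat2 φ) :=
  (countEnd_of (le := leEl φ) (nub_nodup _) (PO_DU (PO_AB (PO_R2 _)) PO_B2) (g2 φ)
    (g2_injective φ) (mem_els2 φ) (ord2_iff φ)).1

end

/-- hardness -/
theorem hard (C : List (List Bool) → Prop) (hC : ∀ M, IsPoset M → HeightLE 3 M → C M) :
    SharpPHard (strFn (countC C)) := by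
  refine sharpPHard_of_satCount (fun φ => [mat1 φ, mat2 φ])
    (fun s => recover s.1 (s.2.getD 0 0) (s.2.getD 1 0)) ?_ ?_ ?_
    (Polynomial.X ^ 2 + 1) fun M => ?_
  · exact Poly.cons (poly_mat1 Poly.id) (Poly.cons (poly_mat2 Poly.id) (NPC.Poly.const []))
  · exact poly_recover (Poly.fst Poly.id)
      (Poly.getD (Poly.snd Poly.id) (NPC.Poly.const 0) (NPC.Poly.const 0))
      (Poly.getD (Poly.snd Poly.id) (NPC.Poly.const 1) (NPC.Poly.const 0))
  · intro φ
    show satCount φ = recover φ (countC C (mat1 φ)) (countC C (mat2 φ))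
    rw [countC_pos (hC _ (isPoset_mat1 φ) (height_mat1 φ)),
      countC_pos (hC _ (isPoset_mat2 φ) (height_mat2 φ))]
    exact satCount_recover φ
  · exact (Nat.size_le_size (countC_le C M)).trans (countEnd_size M)

/-- membership -/
theorem mem (C : List (List Bool) → Prop) (c : List (List Bool) → Bool) (hc : Poly c)
    (hC : ∀ M, IsPoset M → (c M = true ↔ C M)) : SharpP (strFn (countC C)) := by
  have h := sharpP_typed (α := List (List Bool)) (γ := List Bool)
    (fun M w => decide (w.length = (bits M).length) && (mapB M w && c M)) ?_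
    (Polynomial.C 4 * Polynomial.X + Polynomial.C 1) ?_
  · refine (congrArg SharpP (congrArg strFn (funext fun M => ?_))).mp h
    by_cases hM : IsPoset M ∧ C M
    · rw [countC_pos hM.2, ← card_mapB]
      refine Nat.card_congr (Equiv.subtypeEquivRight fun w => ?_)
      rw [Bool.and_eq_true, Bool.and_eq_true, decide_eq_true_iff, (hC M hM.1).2 hM.2]
      simp only [and_true]
      rfl
    · rw [countC_neg hM, Nat.card_eq_zero]
      left
      refine ⟨fun w => ?_⟩
      have h1 := w.2
      rw [Bool.and_eq_true, Bool.and_eq_true] at h1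
      have h2 := h1.2.1
      unfold mapB at h2
      rw [Bool.and_eq_true] at h2
      have h3 := (posetB_iff M).1 h2.1
      exact hM ⟨h3, (hC M h3).1 h1.2.2⟩
  · have hbits : Poly (fun a : List (List Bool) => bits a) :=
      poly_enc.comp (f := fun a : List (List Bool) => toT a) (Poly.toT' Poly.id)
    exact Poly.and (Poly.decide_eq (Poly.length (Poly.snd Poly.id))
      (Poly.length (hbits.comp (Poly.fst Poly.id)))) (Poly.and (poly_mapB (Poly.fst Poly.id)
      (Poly.snd Poly.id)) (hc.comp (Poly.fst Poly.id)))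
  · intro M w h
    rw [Bool.and_eq_true, decide_eq_true_iff] at h
    have h1 := sz_listBool_le w
    rw [h.1, bits_length] at h1
    simpa using h1

/-! ### Testing the height -/

/-- there is a chain with `k + 1` elements which starts at `i` -/
def chB (M : List (List Bool)) : ℕ → ℕ → Bool
  | 0, _ => true
  | k + 1, i => exB M.length (fun j => !decide (i = j) && (ent M i j && chB M k j))

theorem chB_poly (k : ℕ) : Poly (fun q : List (List Bool) × ℕ => chB q.1 k q.2) := by
  induction k with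
  | zero =>
    simp only [chB]
    exact NPC.Poly.const true
  | succ k ih =>
    simp only [chB]
    have hM : Poly (fun q : List (List Bool) × ℕ => q.1) := Poly.fst Poly.id
    refine poly_exB (p := fun (q : List (List Bool) × ℕ) j =>
      !decide (q.2 = j) && (ent q.1 q.2 j && chB q.1 k j)) (UPoly.length hM) ?_
    have i : Poly (fun x : (List (List Bool) × ℕ) × ℕ => x.1.2) := Poly.snd (Poly.fst Poly.id)
    have j : Poly (fun x : (List (List Bool) × ℕ) × ℕ => x.2) := Poly.snd Poly.id
    have M : Poly (fun x : (List (List Bool) × ℕ) × ℕ => x.1.1) := Poly.fst (Poly.fst Poly.id)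
    exact Poly.and (Poly.not (Poly.decide_eq i j)) (Poly.and (poly_ent M i j)
      (ih.comp (f := fun x : (List (List Bool) × ℕ) × ℕ => (x.1.1, x.2)) (Poly.pair M j)))

theorem chB_iff {M : List (List Bool)} (hM : IsPoset M) (k : ℕ) : ∀ i : Fin M.length,
    chB M k i = true ↔ ∃ f : Fin (k + 1) → Fin M.length, f 0 = i ∧
      ∀ a b, a < b → f a ≠ f b ∧ rel M (f a) (f b) := by
  induction k with
  | zero =>
    intro i
    simp only [chB, true_iff]
    refine ⟨fun _ => i, rfl, fun a b hab => ?_⟩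
    have h1 := a.2
    have h2 := b.2
    rw [Fin.lt_def] at hab
    omega
  | succ k ih =>
    intro i
    simp only [chB, exB_iff, Bool.and_eq_true, Bool.not_eq_true', decide_eq_false_iff_not]
    constructor
    · rintro ⟨j, hj, h1, h2, h3⟩
      obtain ⟨f, hf0, hf⟩ := (ih ⟨j, hj⟩).1 h3
      have hij : rel M i (f 0) := by
        rw [hf0]
        exact h2
      have hne : i ≠ f 0 := by
        rw [hf0]
        intro h
        exact h1 (Fin.ext_iff.1 h)
      have hle : ∀ b, rel M (f 0) (f b) := by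
        intro b
        rcases eq_or_ne b 0 with h | h
        · rw [h]
          exact hM.2.1 _
        · exact (hf 0 b (Fin.pos_iff_ne_zero.2 h)).2
      refine ⟨Fin.cons i f, rfl, ?_⟩
      intro a b hab
      refine Fin.cases (motive := fun a => a < b → (Fin.cons i f : Fin (k + 2) → _) a ≠
        (Fin.cons i f : Fin (k + 2) → _) b ∧ rel M ((Fin.cons i f : Fin (k + 2) → _) a)
        ((Fin.cons i f : Fin (k + 2) → _) b)) ?_ ?_ a hab
      · intro hb
        obtain ⟨b', rfl⟩ := Fin.exists_succ_eq.2 (Fin.pos_iff_ne_zero.1 hb)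
        rw [Fin.cons_zero, Fin.cons_succ]
        refine ⟨?_, hM.2.2.2 _ _ _ hij (hle b')⟩
        intro h
        have h4 : rel M (f 0) i := by
          rw [h]
          exact hle b'
        exact hne (hM.2.2.1 _ _ hij h4)
      · intro a' hb
        obtain ⟨b', rfl⟩ := Fin.exists_succ_eq.2 (Fin.pos_iff_ne_zero.1
          (lt_of_le_of_lt (Fin.zero_le _) hb))
        rw [Fin.cons_succ, Fin.cons_succ]
        exact hf a' b' (Fin.succ_lt_succ_iff.1 hb)
    · rintro ⟨f, hf0, hf⟩
      have h1 := hf 0 1 (by simp)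
      rw [hf0] at h1
      refine ⟨f 1, (f 1).2, fun h => h1.1 (Fin.ext h), h1.2, ?_⟩
      refine (ih (f 1)).2 ⟨fun a => f a.succ, rfl, fun a b hab => ?_⟩
      exact hf _ _ (Fin.succ_lt_succ_iff.2 hab)

/-- the test of the height -/
def htB (h : ℕ) (M : List (List Bool)) : Bool := !exB M.length (fun i => chB M h i)

theorem htB_poly (h : ℕ) : Poly (htB h) := by
  unfold htB
  exact Poly.not (poly_exB (p := fun (M : List (List Bool)) i => chB M h i)
    (UPoly.length Poly.id) (chB_poly h))

theorem htB_iff (h : ℕ) {M : List (List Bool)} (hM : IsPoset M) :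
    htB h M = true ↔ HeightLE h M := by
  unfold htB HeightLE
  rw [Bool.not_eq_true', ← Bool.not_eq_true, not_iff_not, exB_iff]
  constructor
  · rintro ⟨i, hi, h1⟩
    obtain ⟨f, _, hf⟩ := (chB_iff hM h ⟨i, hi⟩).1 h1
    exact ⟨f, hf⟩
  · rintro ⟨f, hf⟩
    exact ⟨f 0, (f 0).2, (chB_iff hM h (f 0)).2 ⟨f, rfl, hf⟩⟩

theorem HeightLE.mono {h h' : ℕ} (hh : h ≤ h') {M : List (List Bool)} (H : HeightLE h M) :
    HeightLE h' M := by
  rintro ⟨f, hf⟩
  refine H ⟨fun a => f (Fin.castLE (by omega) a), fun a b hab => ?_⟩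
  exact hf _ _ (Fin.lt_def.2 (Fin.lt_def.1 hab))

end Pool.Agent.Y570.CE
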